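import Pool.Agent.Y472.K.Defs

/-!
# TK-NEAR: auxiliary statements
-/

set_option autoImplicit false

namespace Pool.Agent.Y430.TK

open Finset Filter Topology MeasureTheory Pool.Agent.W711.HT Pool.Agent.Y472.K
open Pool.Agent.Y391.CB (kN)
open scoped Real

/-! ### The kernel -/

theorem norm_e (N : ℕ) (x y : ℝ) :
    ‖Complex.exp (Complex.I * N * (x + y * Complex.I))‖ = Real.exp (-(N * y)) := by
  rw [Complex.norm_exp]
  congr 1
  simp [Complex.mul_re, Complex.mul_im, Complex.add_re, Complex.add_im]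

theorem e_eq (N : ℕ) (x y : ℝ) : Complex.exp (Complex.I * N * (x + y * Complex.I)) =
    Complex.exp (Complex.I * N * x - N * y) := by
  congr 1
  linear_combination (N * y : ℂ) * Complex.I_mul_I

theorem exp_to {y : ℝ} (hy : 0 < y) : Tendsto (fun N : ℕ => Real.exp (-(N * y))) atTop (𝓝 0) := by
  have h : Tendsto (fun N : ℕ => (N : ℝ) * y) atTop atTop :=
    tendsto_natCast_atTop_atTop.atTop_mul_const hy
  exact Real.tendsto_exp_neg_atTop_nhds_zero.comp h

theorem kN_bound {y : ℝ} (hy : 0 < y) : ∀ᶠ N : ℕ in atTop, ∀ x : ℝ,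
    ‖kN N (x + y * Complex.I)‖ ≤ 4 * Real.exp (-(N * y)) := by
  filter_upwards [(exp_to hy).eventually_le_const (by norm_num : (0 : ℝ) < 1 / 2)] with N hN x
  have h1 := norm_e N x y
  unfold kN
  rw [norm_div, norm_pow, h1]
  have h2 : 1 / 2 ≤ ‖1 - Complex.exp (Complex.I * N * (x + y * Complex.I))‖ := by
    have := norm_sub_norm_le (1 : ℂ) (Complex.exp (Complex.I * N * (x + y * Complex.I)))
    rw [norm_one, h1] at this
    linarith
  have h3 : (1 / 4 : ℝ) ≤ ‖1 - Complex.exp (Complex.I * N * (x + y * Complex.I))‖ ^ 2 := by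
    nlinarith
  rw [div_le_iff₀ (by linarith)]
  have := Real.exp_pos (-(N * y))
  nlinarith

theorem kN_lim {y : ℝ} (hy : 0 < y) (x : ℕ → ℝ) :
    Tendsto (fun N : ℕ => kN N (x N + y * Complex.I) *
      Complex.exp (-(Complex.I * N * x N - N * y))) atTop (𝓝 1) := by
  have h1 : Tendsto (fun N : ℕ => Complex.exp (Complex.I * N * (x N + y * Complex.I))) atTop
      (𝓝 0) := by
    rw [tendsto_zero_iff_norm_tendsto_zero]
    simp only [norm_e]
    exact exp_to hy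
  have h2 : Tendsto (fun N : ℕ => 1 /
      (1 - Complex.exp (Complex.I * N * (x N + y * Complex.I))) ^ 2) atTop (𝓝 1) := by
    have := ((tendsto_const_nhds (x := (1 : ℂ))).sub h1).pow 2
    rw [sub_zero, one_pow] at this
    have h3 := (tendsto_const_nhds (x := (1 : ℂ))).div this one_ne_zero
    rw [div_one] at h3
    exact h3
  refine h2.congr fun N => ?_
  unfold kN
  rw [e_eq, Complex.exp_neg]
  field_simp

/-! ### The function `lf` -/

theorem arg_ne {y : ℝ} (hy : 0 < y) (x t : ℝ) :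
    2 * Complex.cos (x + y * Complex.I) - 2 * (Real.cos (2 * π * t) : ℂ) ≠ 0 := by
  intro h
  have h1 : Complex.cos (x + y * Complex.I) = (Real.cos (2 * π * t) : ℂ) := by
    linear_combination h / 2
  rw [Complex.cos_add_mul_I] at h1
  have h2 := congrArg Complex.im h1
  have h3 := congrArg Complex.re h1
  rw [← Complex.ofReal_cos, ← Complex.ofReal_sin, ← Complex.ofReal_cosh, ← Complex.ofReal_sinh]
    at h2 h3
  simp only [Complex.sub_im, Complex.sub_re, Complex.mul_re, Complex.mul_im, Complex.ofReal_re,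
    Complex.ofReal_im, Complex.I_re, Complex.I_im, mul_zero, zero_mul, sub_zero, add_zero,
    mul_one, zero_sub] at h2 h3
  have hs : 0 < Real.sinh y := Real.sinh_pos_iff.2 hy
  have h4 : Real.sin x = 0 := by
    have : Real.sin x * Real.sinh y = 0 := by linarith
    rcases mul_eq_zero.1 this with h | h
    · exact h
    · exact absurd h hs.ne'
  have h5 : Real.cos x ^ 2 = 1 := by
    have := Real.sin_sq_add_cos_sq x
    rw [h4] at this
    linarith
  have h6 : Real.cos (2 * π * t) ^ 2 ≤ 1 := Real.cos_sq_le_one _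
  rw [← h3, mul_pow, h5, one_mul] at h6
  have h7 := Real.one_lt_cosh.2 hy.ne'
  nlinarith

theorem lf_cont {y : ℝ} (hy : 0 < y) (x : ℝ) : Continuous (lf x y) := by
  unfold lf
  refine Continuous.log (by fun_prop) fun t => ?_
  exact norm_ne_zero_iff.2 (arg_ne hy x t)

/-! ### Rates -/

theorem rate_sum {n : ℕ} [NeZero n] {y : ℝ} (hy : 0 < y) (x : ℝ) (a b : Fin n → ℝ) :
    ∑ r, (Ep x y (a r) (b r) + Ep x y (a (r + 1)) (b r)) =
      ∑ r, (Lc (a r - b r) + Lc (a (r + 1) - b r)) + ∑ r, ∫ t in (b r)..(a (r + 1)), lf x y t := by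
  have hI : ∀ p q : ℝ, IntervalIntegrable (lf x y) volume p q := fun p q =>
    (lf_cont hy x).intervalIntegrable p q
  have h1 : ∀ p q : ℝ, ∫ t in p..q, lf x y t = (∫ t in (0 : ℝ)..q, lf x y t) -
      ∫ t in (0 : ℝ)..p, lf x y t := by
    intro p q
    rw [intervalIntegral.integral_interval_sub_left (hI _ _) (hI _ _)]
  have h2 : ∑ r, ∫ t in (0 : ℝ)..(a (r + 1)), lf x y t = ∑ r, ∫ t in (0 : ℝ)..(a r), lf x y t :=
    Equiv.sum_comp (Equiv.addRight (1 : Fin n)) fun r => ∫ t in (0 : ℝ)..(a r), lf x y t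
  have h3 : ∑ r, (Ep x y (a r) (b r) + Ep x y (a (r + 1)) (b r)) =
      ∑ r, (Lc (a r - b r) + Lc (a (r + 1) - b r)) +
      ∑ r, (1 / 2 * (∫ t in (0 : ℝ)..(a r), lf x y t) +
        1 / 2 * (∫ t in (0 : ℝ)..(a (r + 1)), lf x y t) - ∫ t in (0 : ℝ)..(b r), lf x y t) := by
    rw [← sum_add_distrib]
    refine sum_congr rfl fun r _ => ?_
    unfold Ep
    rw [h1 (b r) (a r), h1 (b r) (a (r + 1))]
    ring
  rw [h3]
  congr 1
  have h4 : ∀ r, ∫ t in (b r)..(a (r + 1)), lf x y t = (∫ t in (0 : ℝ)..(a (r + 1)), lf x y t) -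
      ∫ t in (0 : ℝ)..(b r), lf x y t := fun r => h1 _ _
  simp only [h4]
  rw [sum_sub_distrib, sum_sub_distrib, sum_add_distrib, ← mul_sum, ← mul_sum, h2]
  ring

theorem rate_le {n : ℕ} [NeZero n] (hn : 1 ≤ n) {x E α β c ρ : ℝ} (hc : 0 ≤ c) {y : ℝ}
    (H : ∀ a b : ℝ, |a - α| ≤ ρ → |b - β| ≤ ρ →
      Ep x y a b ≤ E - c * (x ^ 2 + (a - α) ^ 2 + (b - β) ^ 2)) (a b : Fin n → ℝ)
    (ha : ∀ r, |a r - α| ≤ ρ) (hb : ∀ r, |b r - β| ≤ ρ) :
    ∑ r, (Ep x y (a r) (b r) + Ep x y (a (r + 1)) (b r)) ≤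
      2 * n * E - c * (x ^ 2 + (∑ r, (a r - α) ^ 2 + ∑ r, (b r - β) ^ 2)) := by
  have h1 : ∑ r, (Ep x y (a r) (b r) + Ep x y (a (r + 1)) (b r)) ≤
      ∑ r, (2 * E - c * (2 * x ^ 2 + ((a r - α) ^ 2 + (a (r + 1) - α) ^ 2 +
        2 * (b r - β) ^ 2))) := by
    refine sum_le_sum fun r _ => ?_
    have h2 := H (a r) (b r) (ha r) (hb r)
    have h3 := H (a (r + 1)) (b r) (ha (r + 1)) (hb r)
    linarith
  refine h1.trans ?_
  have h2 : ∑ r, (a (r + 1) - α) ^ 2 = ∑ r, (a r - α) ^ 2 :=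
    Equiv.sum_comp (Equiv.addRight (1 : Fin n)) fun r => (a r - α) ^ 2
  have e : ∑ r, (2 * E - c * (2 * x ^ 2 + ((a r - α) ^ 2 + (a (r + 1) - α) ^ 2 +
        2 * (b r - β) ^ 2))) =
      2 * n * E - c * (n * (2 * x ^ 2) + (∑ r, (a r - α) ^ 2 + ∑ r, (a r - α) ^ 2 +
        2 * ∑ r, (b r - β) ^ 2)) := by
    simp only [sum_sub_distrib, sum_add_distrib, ← mul_sum, sum_const, card_univ,
      Fintype.card_fin, nsmul_eq_mul]
    rw [h2]
    ring
  rw [e]
  have h3 : (1 : ℝ) ≤ n := by exact_mod_cast hn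
  have h4 : 0 ≤ ∑ r, (a r - α) ^ 2 := sum_nonneg fun r _ => sq_nonneg _
  have h5 : 0 ≤ ∑ r, (b r - β) ^ 2 := sum_nonneg fun r _ => sq_nonneg _
  have h6 : x ^ 2 + (∑ r, (a r - α) ^ 2 + ∑ r, (b r - β) ^ 2) ≤
      n * (2 * x ^ 2) + (∑ r, (a r - α) ^ 2 + ∑ r, (a r - α) ^ 2 +
        2 * ∑ r, (b r - β) ^ 2) := by nlinarith [sq_nonneg x]
  have h7 := mul_le_mul_of_nonneg_left h6 hc
  linarith

theorem norm_sin_le (x : ℝ) {y : ℝ} (hy : 0 ≤ y) :
    ‖Complex.sin (x + y * Complex.I)‖ ≤ Real.exp y := by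
  rw [Complex.sin_add_mul_I]
  refine (norm_add_le _ _).trans ?_
  rw [← Complex.ofReal_sin, ← Complex.ofReal_cos, ← Complex.ofReal_cosh, ← Complex.ofReal_sinh,
    norm_mul, norm_mul, norm_mul, Complex.norm_I, mul_one, Complex.norm_real, Complex.norm_real,
    Complex.norm_real, Complex.norm_real, Real.norm_eq_abs, Real.norm_eq_abs, Real.norm_eq_abs,
    Real.norm_eq_abs, abs_of_pos (Real.cosh_pos y), abs_of_nonneg (Real.sinh_nonneg_iff.2 hy),
    ← Real.cosh_add_sinh]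
  have h1 := Real.abs_sin_le_one x
  have h2 := Real.abs_cos_le_one x
  have h3 := Real.cosh_pos y
  have h4 := Real.sinh_nonneg_iff.2 hy
  nlinarith

/-! ### Products of sines -/

theorem Sd_pos {N d : ℕ} (h : d < N) : 0 < Sd N d := by
  unfold Sd
  refine prod_pos fun k hk => ?_
  rw [mem_range] at hk
  have hN : (0 : ℝ) < N := by exact_mod_cast (by omega : 0 < N)
  refine mul_pos two_pos (Real.sin_pos_of_pos_of_lt_pi (by positivity) ?_)
  rw [div_lt_iff₀ hN]
  have : (k + 1 : ℝ) < N := by exact_mod_cast (by omega : k + 1 < N)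
  exact mul_lt_mul_of_pos_left this Real.pi_pos

theorem norm_vN (N : ℕ) (m : ℤ) : ‖vN N ^ m‖ = 1 := by
  have h : ‖vN N‖ = 1 := by
    unfold vN
    rw [Complex.norm_exp]
    simp
  rw [norm_zpow, h, one_zpow]

theorem vN_zpow (N : ℕ) (m : ℤ) : vN N ^ m = Complex.exp (Complex.I * π / N * m) := by
  unfold vN
  rw [← Complex.exp_int_mul]
  congr 1
  ring

end Pool.Agent.Y430.TK
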