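import Pool.Agent.Y430.TK.Near0

/-!
# TK-NEAR: the domination
-/

set_option autoImplicit false

namespace Pool.Agent.Y430.TK

open Finset Filter Topology MeasureTheory Pool.Agent.W711.HT Pool.Agent.Y472.K
open Pool.Agent.Y391.CB (kN)
open scoped Real

/-- the integrand of a configuration -/
noncomputable def Fc (n N : ℕ) [NeZero n] (i j : Fin n → ℕ) (x : ℝ) : ℂ :=
  co n N i j * (Complex.sin (x + yn n * Complex.I) * Qc n N i j (x + yn n * Complex.I) *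
      kN N (x + yn n * Complex.I))

theorem co_bound {n N : ℕ} [NeZero n] (hN : 1 ≤ N) {C₁ : ℝ}
    (i j : Fin n → ℕ) (hOk : Ok n N i j)
    (H : ∀ r, (Sd N (i r - j r))⁻¹ ≤ C₁ / √N * Real.exp (N * Lc (((i r : ℝ) - j r) / N)) ∧
      (Sd N (i (r + 1) - j r))⁻¹ ≤
        C₁ / √N * Real.exp (N * Lc (((i (r + 1) : ℝ) - j r) / N))) :
    (N : ℝ) ^ n * ‖co n N i j‖ ≤ (C₁ ^ 2) ^ n * Real.exp (N * ∑ r,
      (Lc (((i r : ℝ) - j r) / N) + Lc (((i (r + 1) : ℝ) - j r) / N))) := by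
  have hNp : (0 : ℝ) < N := by exact_mod_cast hN
  have e1 : (N : ℝ) ^ n = ∏ _r : Fin n, (N : ℝ) := by simp
  have e2 : (C₁ ^ 2) ^ n * Real.exp (N * ∑ r,
      (Lc (((i r : ℝ) - j r) / N) + Lc (((i (r + 1) : ℝ) - j r) / N))) =
      ∏ r : Fin n, (C₁ ^ 2 * Real.exp (N *
        (Lc (((i r : ℝ) - j r) / N) + Lc (((i (r + 1) : ℝ) - j r) / N)))) := by
    rw [prod_mul_distrib, ← Real.exp_sum, ← mul_sum]
    simp
  unfold co
  rw [norm_prod, e1, ← prod_mul_distrib, e2]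
  refine prod_le_prod (fun r _ => by positivity) fun r _ => ?_
  obtain ⟨h1, h2⟩ := H r
  have p1 : 0 < Sd N (i r - j r) := Sd_pos (by have := hOk.lt r; omega)
  have p2 : 0 < Sd N (i (r + 1) - j r) := Sd_pos (by have := hOk.lt (r + 1); omega)
  rw [norm_div, norm_vN, norm_mul, Complex.norm_real, Complex.norm_real, Real.norm_eq_abs,
    Real.norm_eq_abs, abs_of_pos p1, abs_of_pos p2]
  have h3 := mul_le_mul h1 h2 (inv_nonneg.2 p2.le) ((inv_nonneg.2 p1.le).trans h1)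
  have hs : √(N : ℝ) * √N = N := Real.mul_self_sqrt hNp.le
  have hs0 : 0 < √(N : ℝ) := Real.sqrt_pos.2 hNp
  calc (N : ℝ) * (1 / (Sd N (i r - j r) * Sd N (i (r + 1) - j r)))
      = N * ((Sd N (i r - j r))⁻¹ * (Sd N (i (r + 1) - j r))⁻¹) := by
        rw [one_div, mul_inv]
    _ ≤ N * (C₁ / √N * Real.exp (N * Lc (((i r : ℝ) - j r) / N)) *
        (C₁ / √N * Real.exp (N * Lc (((i (r + 1) : ℝ) - j r) / N)))) :=
        mul_le_mul_of_nonneg_left h3 hNp.le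
    _ = C₁ ^ 2 * Real.exp (N *
        (Lc (((i r : ℝ) - j r) / N) + Lc (((i (r + 1) : ℝ) - j r) / N))) := by
        rw [mul_add, Real.exp_add]
        field_simp
        rw [Real.sq_sqrt hNp.le]
        ring

theorem Qc_bound {n N : ℕ} [NeZero n] {C₂ y x : ℝ} (i j : Fin n → ℕ)
    (hOk : Ok n N i j)
    (H : ∀ j i : ℕ, j ≤ i → i ≤ N → ‖Pq N j i (x + y * Complex.I)‖ ≤
      C₂ * Real.exp (N * ∫ t in ((j : ℝ) / N)..((i : ℝ) / N), lf x y t)) :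
    ‖Qc n N i j (x + y * Complex.I)‖ ≤ C₂ ^ n * Real.exp (N * ∑ r,
      ∫ t in ((j r : ℝ) / N)..((i (r + 1) : ℝ) / N), lf x y t) := by
  have e2 : C₂ ^ n * Real.exp (N * ∑ r,
      ∫ t in ((j r : ℝ) / N)..((i (r + 1) : ℝ) / N), lf x y t) =
      ∏ r : Fin n, (C₂ * Real.exp (N *
        ∫ t in ((j r : ℝ) / N)..((i (r + 1) : ℝ) / N), lf x y t)) := by
    rw [prod_mul_distrib, ← Real.exp_sum, ← mul_sum]
    simp
  unfold Qc
  rw [norm_prod, e2]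
  exact prod_le_prod (fun r _ => norm_nonneg _) fun r _ =>
    H _ _ (hOk.le' r) (hOk.lt (r + 1)).le

theorem dom (hPAR : S_PAR) (hSDA : S_SDA) (hQB : S_QB) (hQUAD : S_QUAD) (n : ℕ) [NeZero n]
    (hn : 4 ≤ n) : ∃ ρ₁ c C : ℝ, 0 < ρ₁ ∧ 0 < c ∧ ∀ᶠ N : ℕ in atTop,
      ∀ i j : Fin n → ℕ, Ok n N i j → (∀ r, |(i r : ℝ) / N - (1 - bs n)| ≤ ρ₁ ∧
        |(j r : ℝ) / N - bs n| ≤ ρ₁) → ∀ x : ℝ, |x| ≤ ρ₁ →
      ‖(N : ℂ) ^ n * Complex.exp (-(N * Dn n)) * Fc n N i j x‖ ≤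
        C * Real.exp (-(c * (N * (∑ r, ((i r : ℝ) / N - (1 - bs n)) ^ 2 +
          ∑ r, ((j r : ℝ) / N - bs n) ^ 2) + N * x ^ 2))) := by
  obtain ⟨hg1, hg2, hC1, hC2, hy, hcosh, hb1, hb2, -⟩ := hPAR n hn
  obtain ⟨ρq, cq, hρq, hcq, HQ⟩ := hQUAD hPAR n hn
  obtain ⟨C₁, hC₁, HS⟩ := hSDA.1 (1 / 6) (by norm_num) (by norm_num)
  obtain ⟨C₂, hC₂, HB⟩ := hQB (yn n) hy
  refine ⟨min ρq (1 / 12), cq, (C₁ ^ 2) ^ n * C₂ ^ n * Real.exp (yn n) * 4,
    lt_min hρq (by norm_num), hcq, ?_⟩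
  filter_upwards [HS, kN_bound hy, eventually_ge_atTop 1] with N h1 h2 hN i j hOk hij x hx
  have hNp : (0 : ℝ) < N := by exact_mod_cast hN
  have hi : ∀ r, |(i r : ℝ) / N - (1 - bs n)| ≤ ρq := fun r => (hij r).1.trans (min_le_left _ _)
  have hj : ∀ r, |(j r : ℝ) / N - bs n| ≤ ρq := fun r => (hij r).2.trans (min_le_left _ _)
  have hi' : ∀ r, |(i r : ℝ) / N - (1 - bs n)| ≤ 1 / 12 := fun r =>
    (hij r).1.trans (min_le_right _ _)
  have hj' : ∀ r, |(j r : ℝ) / N - bs n| ≤ 1 / 12 := fun r => (hij r).2.trans (min_le_right _ _)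
  -- differences of the indices
  have hdiff : ∀ r s, j s ≤ i r → (Sd N (i r - j s))⁻¹ ≤
      C₁ / √N * Real.exp (N * Lc (((i r : ℝ) - j s) / N)) := by
    intro r s hrs
    have h3 := abs_le.1 (hi' r)
    have h4 := abs_le.1 (hj' s)
    have e : ((i r - j s : ℕ) : ℝ) = (i r : ℝ) - j s := Nat.cast_sub hrs
    have e1 : ((i r : ℝ) - j s) / N = (i r : ℝ) / N - (j s : ℝ) / N := sub_div _ _ _
    have h5 : 1 / 6 ≤ ((i r : ℝ) - j s) / N := by rw [e1]; linarith [h3.1, h4.2]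
    have h6 : ((i r : ℝ) - j s) / N ≤ 1 - 1 / 6 := by rw [e1]; linarith [h3.2, h4.1]
    rw [le_div_iff₀ hNp] at h5
    rw [div_le_iff₀ hNp] at h6
    have h7 := h1 (i r - j s) (by rw [e]; exact h5) (by rw [e]; exact h6)
    rw [e] at h7
    exact h7
  have hco := co_bound hN i j hOk fun r => ⟨hdiff r r (hOk.le r), hdiff (r + 1) r (hOk.le' r)⟩
  have hQ := Qc_bound (y := yn n) (x := x) i j hOk fun j i h h' => HB N hN j i h h' x
  have hs := norm_sin_le x hy.le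
  have hk := h2 x
  unfold Fc
  rw [norm_mul, norm_mul, norm_mul, norm_mul, norm_mul, norm_pow, Complex.norm_natCast,
    Complex.norm_exp]
  have e3 : (-((N : ℂ) * Dn n)).re = -(N * Dn n) := by
    rw [Complex.neg_re, ← Complex.ofReal_natCast, Complex.re_ofReal_mul, Complex.ofReal_re]
  rw [e3]
  -- the rate
  have hrate := rate_le (n := n) (x := x) (E := Es n) (α := 1 - bs n) (β := bs n) (ρ := ρq)
    (y := yn n) (by omega) hcq.le (fun a b ha hb => HQ x a b (hx.trans (min_le_left _ _)) ha hb)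
    (fun r => (i r : ℝ) / N) (fun r => (j r : ℝ) / N) hi hj
  rw [rate_sum hy] at hrate
  simp only [← sub_div] at hrate
  have hexp : (N : ℝ) * (∑ r, (Lc (((i r : ℝ) - j r) / N) + Lc (((i (r + 1) : ℝ) - j r) / N))) +
      N * (∑ r, ∫ t in ((j r : ℝ) / N)..((i (r + 1) : ℝ) / N), lf x (yn n) t) - N * yn n -
      N * Dn n ≤ -(cq * (N * (∑ r, ((i r : ℝ) / N - (1 - bs n)) ^ 2 +
          ∑ r, ((j r : ℝ) / N - bs n) ^ 2) + N * x ^ 2)) := by
    have h3 := mul_le_mul_of_nonneg_left hrate hNp.le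
    unfold Dn
    linarith
  calc (N : ℝ) ^ n * Real.exp (-(N * Dn n)) * (‖co n N i j‖ *
        (‖Complex.sin (x + yn n * Complex.I)‖ * ‖Qc n N i j (x + yn n * Complex.I)‖ *
          ‖kN N (x + yn n * Complex.I)‖))
      = ((N : ℝ) ^ n * ‖co n N i j‖) * Real.exp (-(N * Dn n)) *
        (‖Complex.sin (x + yn n * Complex.I)‖ * ‖Qc n N i j (x + yn n * Complex.I)‖ *
          ‖kN N (x + yn n * Complex.I)‖) := by ring
    _ ≤ ((C₁ ^ 2) ^ n * Real.exp (N * ∑ r,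
          (Lc (((i r : ℝ) - j r) / N) + Lc (((i (r + 1) : ℝ) - j r) / N)))) *
        Real.exp (-(N * Dn n)) * (Real.exp (yn n) * (C₂ ^ n * Real.exp (N * ∑ r,
          ∫ t in ((j r : ℝ) / N)..((i (r + 1) : ℝ) / N), lf x (yn n) t)) *
          (4 * Real.exp (-(N * yn n)))) := by
        gcongr
    _ = (C₁ ^ 2) ^ n * C₂ ^ n * Real.exp (yn n) * 4 * Real.exp (
        (N : ℝ) * (∑ r, (Lc (((i r : ℝ) - j r) / N) + Lc (((i (r + 1) : ℝ) - j r) / N))) +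
        N * (∑ r, ∫ t in ((j r : ℝ) / N)..((i (r + 1) : ℝ) / N), lf x (yn n) t) - N * yn n -
        N * Dn n) := by
        rw [sub_eq_add_neg, sub_eq_add_neg, Real.exp_add, Real.exp_add, Real.exp_add]
        ring
    _ ≤ _ := by
        refine mul_le_mul_of_nonneg_left (Real.exp_le_exp.2 hexp) (by positivity)

end Pool.Agent.Y430.TK
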