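import Pool.Agent.Y430.TK.Near1

/-!
# TK-NEAR: the pointwise limit
-/

set_option autoImplicit false

namespace Pool.Agent.Y430.TK

open Finset Filter Topology MeasureTheory Pool.Agent.W711.HT Pool.Agent.Y472.K
open Pool.Agent.Y391.CB (kN)
open scoped Real

theorem co_eq {n N : ℕ} [NeZero n] (i j : Fin n → ℕ) :
    co n N i j = Complex.exp (Complex.I * π / N * ∑ r, ((i r : ℂ) - i (r + 1)) * j r) *
      ∏ r, ((Sd N (i r - j r) : ℂ) * (Sd N (i (r + 1) - j r) : ℂ))⁻¹ := by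
  unfold co
  rw [mul_sum, Complex.exp_sum, ← prod_mul_distrib]
  refine prod_congr rfl fun r _ => ?_
  rw [vN_zpow, div_eq_mul_inv]
  push_cast
  rfl

/-- the normalised product of sines -/
noncomputable def An (N : ℕ) (m : ℕ) : ℝ := Sd N m * Real.exp (N * Lc (m / N)) / √N

theorem An_eq {N : ℕ} (hN : 1 ≤ N) (i j k : ℕ) (h : j ≤ i) (h' : j ≤ k) :
    (An N (i - j) : ℂ)⁻¹ * (An N (k - j) : ℂ)⁻¹ =
      N * ((Sd N (i - j) : ℂ) * (Sd N (k - j) : ℂ))⁻¹ *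
        Complex.exp (-(N * ((Lc (((i : ℝ) - j) / N) : ℂ) + (Lc (((k : ℝ) - j) / N) : ℂ)))) := by
  have hNp : (0 : ℝ) < N := by exact_mod_cast hN
  have e1 : ((i - j : ℕ) : ℝ) = (i : ℝ) - j := Nat.cast_sub h
  have e2 : ((k - j : ℕ) : ℝ) = (k : ℝ) - j := Nat.cast_sub h'
  unfold An
  rw [e1, e2]
  have hs : ((√(N : ℝ) : ℝ) : ℂ) * ((√(N : ℝ) : ℝ) : ℂ) = N := by
    rw [← Complex.ofReal_mul, Real.mul_self_sqrt hNp.le, Complex.ofReal_natCast]
  push_cast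
  rw [show -((N : ℂ) * ((Lc (((i : ℝ) - j) / N) : ℂ) + (Lc (((k : ℝ) - j) / N) : ℂ))) =
    -(N * (Lc (((i : ℝ) - j) / N) : ℂ)) + -(N * (Lc (((k : ℝ) - j) / N) : ℂ)) by ring,
    Complex.exp_add, Complex.exp_neg, Complex.exp_neg]
  rw [inv_div, inv_div]
  rw [← hs]
  simp only [div_eq_mul_inv, mul_inv]
  ring

theorem P1_eq {n N : ℕ} [NeZero n] (hN : 1 ≤ N) (i j : Fin n → ℕ) (hOk : Ok n N i j) :
    ∏ r, ((An N (i r - j r) : ℂ)⁻¹ * (An N (i (r + 1) - j r) : ℂ)⁻¹) =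
      (N : ℂ) ^ n * (∏ r, ((Sd N (i r - j r) : ℂ) * (Sd N (i (r + 1) - j r) : ℂ))⁻¹) *
        Complex.exp (-(N * ∑ r, ((Lc (((i r : ℝ) - j r) / N) : ℂ) +
          (Lc (((i (r + 1) : ℝ) - j r) / N) : ℂ)))) := by
  have h1 : ∀ r, (An N (i r - j r) : ℂ)⁻¹ * (An N (i (r + 1) - j r) : ℂ)⁻¹ =
      N * ((Sd N (i r - j r) : ℂ) * (Sd N (i (r + 1) - j r) : ℂ))⁻¹ *
        Complex.exp (-(N * ((Lc (((i r : ℝ) - j r) / N) : ℂ) +
          (Lc (((i (r + 1) : ℝ) - j r) / N) : ℂ)))) := fun r =>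
    An_eq hN _ _ _ (hOk.le r) (hOk.le' r)
  rw [prod_congr rfl fun r _ => h1 r, prod_mul_distrib, prod_mul_distrib, ← Complex.exp_sum,
    prod_const, card_univ, Fintype.card_fin, sum_neg_distrib, ← mul_sum]

theorem P2_eq {n N : ℕ} [NeZero n] (i j : Fin n → ℕ) (x y : ℝ) :
    ∏ r, (Pq N (j r) (i (r + 1)) (x + y * Complex.I) *
      Complex.exp (-(N * ∫ t in ((j r : ℝ) / N)..((i (r + 1) : ℝ) / N), clf x y t))) =
    Qc n N i j (x + y * Complex.I) *
      Complex.exp (-(N * ∑ r, ∫ t in ((j r : ℝ) / N)..((i (r + 1) : ℝ) / N), clf x y t)) := by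
  unfold Qc
  rw [prod_mul_distrib, ← Complex.exp_sum, sum_neg_distrib, ← mul_sum]

/-- the decomposition of the term -/
theorem term_eq {n N : ℕ} [NeZero n] (hN : 1 ≤ N) (i j : Fin n → ℕ) (hOk : Ok n N i j) (x : ℝ) :
    (N : ℂ) ^ n * Complex.exp (-(N * Dn n)) * Fc n N i j x =
      (∏ r, ((An N (i r - j r) : ℂ)⁻¹ * (An N (i (r + 1) - j r) : ℂ)⁻¹)) *
      (∏ r, (Pq N (j r) (i (r + 1)) (x + yn n * Complex.I) * Complex.exp
        (-(N * ∫ t in ((j r : ℝ) / N)..((i (r + 1) : ℝ) / N), clf x (yn n) t)))) *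
      Complex.sin (x + yn n * Complex.I) *
      (kN N (x + yn n * Complex.I) * Complex.exp (-(Complex.I * N * x - N * yn n))) *
      Complex.exp ((N : ℂ) * (Xe n N i j x - Dn n) +
        Complex.I * π / N * ∑ r, ((i r : ℂ) - i (r + 1)) * j r) := by
  rw [P1_eq hN i j hOk, P2_eq]
  unfold Fc
  rw [co_eq]
  unfold Xe
  set L : ℂ := ∑ r, ((Lc (((i r : ℝ) - j r) / N) : ℂ) +
    (Lc (((i (r + 1) : ℝ) - j r) / N) : ℂ)) with hL
  set J : ℂ := ∑ r, ∫ t in ((j r : ℝ) / N)..((i (r + 1) : ℝ) / N), clf x (yn n) t with hJ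
  set E : ℂ := Complex.I * π / N * ∑ r, ((i r : ℂ) - i (r + 1)) * j r with hE
  set D : ℂ := ∏ r, ((Sd N (i r - j r) : ℂ) * (Sd N (i (r + 1) - j r) : ℂ))⁻¹ with hD
  have hexp : Complex.exp (-(N * Dn n)) * Complex.exp E = Complex.exp (-(N * L)) *
      Complex.exp (-(N * J)) * Complex.exp (-(Complex.I * N * x - N * yn n)) *
      Complex.exp ((N : ℂ) * (L + J + Complex.I * x - yn n - Dn n) + E) := by
    rw [← Complex.exp_add, ← Complex.exp_add, ← Complex.exp_add, ← Complex.exp_add]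
    congr 1
    ring
  linear_combination ((N : ℂ) ^ n * D * Complex.sin (x + yn n * Complex.I) *
    Qc n N i j (x + yn n * Complex.I) * kN N (x + yn n * Complex.I)) * hexp

/-- the constant -/
noncomputable def kap (n : ℕ) : ℂ := ((√(2 * Real.sin (π * (1 - 2 * bs n))) : ℝ) : ℂ)

/-- the limit of the term -/
noncomputable def lm (n : ℕ) (w : ℂ) : ℂ :=
  ((kap n)⁻¹ * (kap n)⁻¹) ^ n * Complex.sin (yn n * Complex.I) * Complex.exp w

theorem kap_ne {n : ℕ} (h1 : 1 / 4 < bs n) (h2 : bs n < 1 / 3) : kap n ≠ 0 := by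
  unfold kap
  have h3 : 0 < Real.sin (π * (1 - 2 * bs n)) := by
    have hp := Real.pi_pos
    refine Real.sin_pos_of_pos_of_lt_pi ?_ ?_
    · exact mul_pos hp (by linarith)
    · have : π * (1 - 2 * bs n) < π * 1 := mul_lt_mul_of_pos_left (by linarith) hp
      linarith
  have h4 : 0 < √(2 * Real.sin (π * (1 - 2 * bs n))) := Real.sqrt_pos.2 (by linarith)
  exact_mod_cast h4.ne'

theorem plim (hPAR : S_PAR) (hSDA : S_SDA) (hQDA : S_QDA) (n : ℕ) [NeZero n] (hn : 4 ≤ n)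
    (i j : ℕ → Fin n → ℕ) (x : ℕ → ℝ) (w : ℂ)
    (hi : ∀ r, Tendsto (fun N : ℕ => (i N r : ℝ) / N) atTop (𝓝 (1 - bs n)))
    (hj : ∀ r, Tendsto (fun N : ℕ => (j N r : ℝ) / N) atTop (𝓝 (bs n)))
    (hx : Tendsto x atTop (𝓝 0)) (hOk : ∀ᶠ N in atTop, Ok n N (i N) (j N))
    (hPT : Tendsto (fun N : ℕ => (N : ℂ) * (Xe n N (i N) (j N) (x N) - Dn n) +
        Complex.I * π / N * ∑ r, ((i N r : ℂ) - i N (r + 1)) * j N r) atTop (𝓝 w)) :
    Tendsto (fun N : ℕ => (N : ℂ) ^ n * Complex.exp (-(N * Dn n)) *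
      Fc n N (i N) (j N) (x N)) atTop (𝓝 (lm n w)) := by
  obtain ⟨hg1, hg2, hC1, hC2, hy, hcosh, hb1, hb2, -⟩ := hPAR n hn
  have hk := kap_ne hb1 hb2
  -- the products of sines
  have hA : ∀ r s, (∀ᶠ N in atTop, j N s ≤ i N r) →
      Tendsto (fun N : ℕ => (An N (i N r - j N s) : ℂ)⁻¹) atTop (𝓝 (kap n)⁻¹) := by
    intro r s hrs
    have h1 : Tendsto (fun N : ℕ => ((i N r - j N s : ℕ) : ℝ) / N) atTop
        (𝓝 (1 - 2 * bs n)) := by
      have h2 := (hi r).sub (hj s)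
      have e : 1 - bs n - bs n = 1 - 2 * bs n := by ring
      rw [e] at h2
      refine h2.congr' ?_
      filter_upwards [hrs] with N hN
      rw [Nat.cast_sub hN, sub_div]
    have h2 := hSDA.2 (fun N => i N r - j N s) (1 - 2 * bs n) (by linarith) (by linarith) h1
    have h3 : Tendsto (fun N : ℕ => ((An N (i N r - j N s) : ℝ) : ℂ)) atTop (𝓝 (kap n)) :=
      (Complex.continuous_ofReal.tendsto _).comp h2
    exact h3.inv₀ hk
  have hP1 : Tendsto (fun N : ℕ => ∏ r, ((An N (i N r - j N r) : ℂ)⁻¹ *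
      (An N (i N (r + 1) - j N r) : ℂ)⁻¹)) atTop (𝓝 (∏ _r : Fin n, ((kap n)⁻¹ * (kap n)⁻¹))) := by
    refine tendsto_finsetProd _ fun r _ => (hA r r ?_).mul (hA (r + 1) r ?_)
    · filter_upwards [hOk] with N hN using hN.le r
    · filter_upwards [hOk] with N hN using hN.le' r
  rw [prod_const, card_univ, Fintype.card_fin] at hP1
  -- the products `Pq`
  have hP2 : Tendsto (fun N : ℕ => ∏ r, (Pq N (j N r) (i N (r + 1)) (x N + yn n * Complex.I) *
      Complex.exp (-(N * ∫ t in ((j N r : ℝ) / N)..((i N (r + 1) : ℝ) / N),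
        clf (x N) (yn n) t)))) atTop (𝓝 (∏ _r : Fin n, 1)) := by
    refine tendsto_finsetProd _ fun r _ => ?_
    refine hQDA (yn n) hy (fun N => i N (r + 1)) (fun N => j N r) x (1 - bs n) (bs n) ?_ hx
      (hi (r + 1)) (hj r) ?_
    · filter_upwards [hOk] with N hN using ⟨hN.le' r, (hN.lt (r + 1)).le⟩
    · rw [show 2 * π * (1 - bs n) = 2 * π - 2 * π * bs n by ring, Real.cos_two_pi_sub]
  rw [prod_const_one] at hP2
  have hP3 : Tendsto (fun N : ℕ => Complex.sin (x N + yn n * Complex.I)) atTop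
      (𝓝 (Complex.sin (yn n * Complex.I))) := by
    have hc : Continuous fun t : ℝ => Complex.sin (t + yn n * Complex.I) := by fun_prop
    have h1 := (hc.tendsto 0).comp hx
    simp only [Complex.ofReal_zero, zero_add] at h1
    exact h1
  have hP4 := kN_lim hy x
  have hP5 := (Complex.continuous_exp.tendsto w).comp hPT
  have hall := (((hP1.mul hP2).mul hP3).mul hP4).mul hP5
  have e : ((kap n)⁻¹ * (kap n)⁻¹) ^ n * 1 * Complex.sin (yn n * Complex.I) * 1 *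
      Complex.exp w = lm n w := by
    unfold lm
    ring
  rw [e] at hall
  refine hall.congr' ?_
  filter_upwards [hOk, eventually_ge_atTop 1] with N hN h1
  exact (term_eq h1 (i N) (j N) hN (x N)).symm

end Pool.Agent.Y430.TK
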