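import Pool.Agent.Y430.TK.Near
import Pool.Agent.Y472.K.Defs2

/-!
# TK-NEARX: assembly near the maximum, with the value of the limit
-/

set_option autoImplicit false

namespace Pool.Agent.Y430.TK

open Finset Filter Topology MeasureTheory Pool.Agent.W711.HT Pool.Agent.Y472.K
open Pool.Agent.Y391.CB (kN)
open scoped Real

/-- NEARX: the sum over the configurations near the maximum, with the value of the limit -/
theorem nearx : S_NEARX := by
  intro hPAR hLAP hSDA hQDA hQB hQUAD n _ hn R S hRS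
  have HPT := hRS.lim
  obtain ⟨ρ₁, c, C, hρ₁, hc, hdom⟩ := dom hPAR hSDA hQB hQUAD n hn
  obtain ⟨hg1, hg2, hC1, hC2, hy, hcosh, hb1, hb2, -⟩ := hPAR n hn
  obtain ⟨ρ', hρ'⟩ : ∃ ρ', ρ' = min ρ₁ 1 := ⟨_, rfl⟩
  have hρ'0 : 0 < ρ' := by rw [hρ']; exact lt_min hρ₁ one_pos
  have hρ'1 : ρ' ≤ ρ₁ := by rw [hρ']; exact min_le_left _ _
  have hsin : 0 < 2 * Real.sin (π * (1 - 2 * bs n)) := by
    have hpi := Real.pi_pos
    have := Real.sin_pos_of_pos_of_lt_pi (x := π * (1 - 2 * bs n)) (by nlinarith) (by nlinarith)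
    linarith
  refine ⟨ρ', ρ₁, hρ'0, ?_, hρ₁, (2 * Real.sin (π * (1 - 2 * bs n)))⁻¹ ^ n * Real.sinh (yn n),
    ?_, ?_⟩
  · have := Real.pi_gt_three
    have : ρ' ≤ 1 := by rw [hρ']; exact min_le_right _ _
    linarith
  · exact mul_pos (pow_pos (inv_pos.2 hsin) _) (Real.sinh_pos_iff.2 hy)
  intro ρ hρ hρ1
  have hval : Complex.I * (((2 * Real.sin (π * (1 - 2 * bs n)))⁻¹ ^ n * Real.sinh (yn n) : ℝ) : ℂ) *
      ∫ v, Complex.exp (-(R v : ℂ) - Complex.I * (S v : ℂ)) =
      ∫ v, lm n (-(R v : ℂ) - Complex.I * (S v : ℂ)) := by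
    unfold lm
    rw [integral_const_mul]
    congr 1
    have h1 : (kap n)⁻¹ * (kap n)⁻¹ = (((2 * Real.sin (π * (1 - 2 * bs n)))⁻¹ : ℝ) : ℂ) := by
      unfold kap
      rw [← mul_inv, ← Complex.ofReal_mul, Real.mul_self_sqrt hsin.le, ← Complex.ofReal_inv]
    rw [h1, Complex.sin_mul_I, ← Complex.ofReal_sinh]
    push_cast
    ring
  rw [hval]
  have h := hLAP (Fin n ⊕ Fin n) (fk n ρ ρ') (mm n)
    (fun v => lm n (-(R v : ℂ) - Complex.I * (S v : ℂ))) (max C 0) c hc (fk_meas n ρ ρ') ?_ ?_
  · -- conclusion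
    refine h.congr' ?_
    filter_upwards [eventually_ge_atTop 1] with N hN
    have hNp : (0 : ℝ) < N := by exact_mod_cast hN
    rw [fk_sum n ρ hρ'0 N, Fintype.card_sum, Fintype.card_fin]
    have hs : ((√(N : ℝ) : ℝ) : ℂ) ^ (n + n) = (N : ℂ) ^ n := by
      rw [← two_mul, pow_mul, sq, ← Complex.ofReal_mul, Real.mul_self_sqrt hNp.le,
        Complex.ofReal_natCast]
    rw [hs]
    have hN0 : (N : ℂ) ^ n ≠ 0 := pow_ne_zero _ (by exact_mod_cast hNp.ne')
    unfold SS
    field_simp
  · -- domination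
    filter_upwards [hdom, eventually_ge_atTop 1] with N h1 hN k x
    have hNp : (0 : ℝ) < N := by exact_mod_cast hN
    unfold fk
    split_ifs with hk
    · obtain ⟨⟨i, j⟩, hij, rfl⟩ := mem_image.1 hk
      rw [ps_ph]
      rw [mem_SS] at hij
      obtain ⟨hOk, hcl⟩ := hij
      by_cases hx : x ∈ Set.Ioc (-ρ') ρ'
      · rw [Set.indicator_of_mem hx]
        have hx' : |x| ≤ ρ₁ := abs_le.2 ⟨by linarith [hx.1], by linarith [hx.2]⟩
        refine (h1 i j hOk (fun r => ⟨(hcl r).1.le.trans hρ1, (hcl r).2.le.trans hρ1⟩) x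
          hx').trans ?_
        have e : (∑ s, ((ph (i, j) s : ℝ) - mm n N s) ^ 2) / N =
            N * (∑ r, ((i r : ℝ) / N - (1 - bs n)) ^ 2 + ∑ r, ((j r : ℝ) / N - bs n) ^ 2) := by
          rw [Fintype.sum_sum_type, add_div, sum_div, sum_div, mul_add, mul_sum, mul_sum]
          congr 1
          · refine sum_congr rfl fun r _ => ?_
            simp only [ph, mm, Sum.elim_inl, Int.cast_natCast]
            field_simp
          · refine sum_congr rfl fun r _ => ?_
            simp only [ph, mm, Sum.elim_inr, Int.cast_natCast]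
            field_simp
        rw [e]
        exact mul_le_mul_of_nonneg_right (le_max_left _ _) (Real.exp_pos _).le
      · rw [Set.indicator_of_notMem hx, norm_zero]
        positivity
    · rw [norm_zero]
      positivity
  · -- pointwise limit
    intro k x v hk hx
    have hsq : Tendsto (fun N : ℕ => 1 / √(N : ℝ)) atTop (𝓝 0) := by
      have h1 : Tendsto (fun N : ℕ => √(N : ℝ)) atTop atTop :=
        Real.tendsto_sqrt_atTop.comp tendsto_natCast_atTop_atTop
      simp only [one_div]
      exact h1.inv_tendsto_atTop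
    have hk0 : ∀ s, Tendsto (fun N : ℕ => (k N s : ℝ) / N) atTop
        (𝓝 (Sum.elim (fun _ => 1 - bs n) (fun _ => bs n) s)) := by
      intro s
      have h1 := (hk s).mul hsq
      rw [mul_zero] at h1
      have h2 := h1.add_const (Sum.elim (fun _ => 1 - bs n) (fun _ => bs n) s)
      rw [zero_add] at h2
      refine h2.congr' ?_
      filter_upwards [eventually_ge_atTop 1] with N hN
      have hNp : (0 : ℝ) < N := by exact_mod_cast hN
      have hs : √(N : ℝ) * √N = N := Real.mul_self_sqrt hNp.le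
      have hs0 : 0 < √(N : ℝ) := Real.sqrt_pos.2 hNp
      rw [mul_one_div, div_div, hs]
      rcases s with r | r
      · simp only [mm, Sum.elim_inl]
        field_simp
        ring
      · simp only [mm, Sum.elim_inr]
        field_simp
        ring
    have hx0 : Tendsto x atTop (𝓝 0) := by
      have h1 := hx.mul hsq
      rw [mul_zero] at h1
      refine h1.congr' ?_
      filter_upwards [eventually_ge_atTop 1] with N hN
      have hNp : (0 : ℝ) < N := by exact_mod_cast hN
      have hs0 : 0 < √(N : ℝ) := Real.sqrt_pos.2 hNp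
      field_simp
    have hpos : ∀ᶠ N : ℕ in atTop, ∀ s, 0 ≤ k N s := by
      rw [eventually_all]
      intro s
      have h1 : (0 : ℝ) < Sum.elim (fun _ => 1 - bs n) (fun _ => bs n) s := by
        rcases s with r | r
        · simp only [Sum.elim_inl]; linarith
        · simp only [Sum.elim_inr]; linarith
      filter_upwards [(hk0 s).eventually_const_lt h1, eventually_ge_atTop 1] with N h2 hN
      have hNp : (0 : ℝ) < N := by exact_mod_cast hN
      have h3 : (0 : ℝ) < k N s := by
        have := mul_pos h2 hNp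
        rwa [div_mul_cancel₀ _ hNp.ne'] at this
      exact_mod_cast h3.le
    obtain ⟨i, hi⟩ : ∃ i : ℕ → Fin n → ℕ, i = fun N r => (k N (Sum.inl r)).toNat := ⟨_, rfl⟩
    obtain ⟨j, hj⟩ : ∃ j : ℕ → Fin n → ℕ, j = fun N r => (k N (Sum.inr r)).toNat := ⟨_, rfl⟩
    have hik : ∀ᶠ N : ℕ in atTop, (∀ r, (i N r : ℤ) = k N (Sum.inl r)) ∧
        ∀ r, (j N r : ℤ) = k N (Sum.inr r) := by
      filter_upwards [hpos] with N hN
      rw [hi, hj]
      exact ⟨fun r => Int.toNat_of_nonneg (hN _), fun r => Int.toNat_of_nonneg (hN _)⟩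
    have hi0 : ∀ r, Tendsto (fun N : ℕ => (i N r : ℝ) / N) atTop (𝓝 (1 - bs n)) := by
      intro r
      have h1 := hk0 (Sum.inl r)
      simp only [Sum.elim_inl] at h1
      refine h1.congr' ?_
      filter_upwards [hik] with N hN
      rw [← hN.1 r, Int.cast_natCast]
    have hj0 : ∀ r, Tendsto (fun N : ℕ => (j N r : ℝ) / N) atTop (𝓝 (bs n)) := by
      intro r
      have h1 := hk0 (Sum.inr r)
      simp only [Sum.elim_inr] at h1
      refine h1.congr' ?_
      filter_upwards [hik] with N hN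
      rw [← hN.2 r, Int.cast_natCast]
    have hOk : ∀ᶠ N in atTop, Ok n N (i N) (j N) := by
      have h1 : ∀ᶠ N : ℕ in atTop, ∀ r, 1 / 2 < (i N r : ℝ) / N ∧ (i N r : ℝ) / N < 1 := by
        rw [eventually_all]
        intro r
        filter_upwards [(hi0 r).eventually_const_lt (by linarith : (1 : ℝ) / 2 < 1 - bs n),
          (hi0 r).eventually_lt_const (by linarith : 1 - bs n < 1)] with N h2 h3 using ⟨h2, h3⟩
      have h2 : ∀ᶠ N : ℕ in atTop, ∀ r, (j N r : ℝ) / N < 1 / 2 := by
        rw [eventually_all]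
        intro r
        exact (hj0 r).eventually_lt_const (by linarith : bs n < 1 / 2)
      filter_upwards [h1, h2, eventually_ge_atTop 1] with N h3 h4 hN
      have hNp : (0 : ℝ) < N := by exact_mod_cast hN
      have h5 : ∀ r s, j N s ≤ i N r := by
        intro r s
        have h6 := (h4 s).trans (h3 r).1
        rw [div_lt_div_iff_of_pos_right hNp] at h6
        exact_mod_cast h6.le
      refine ⟨fun r => ?_, fun r => h5 r r, fun r => h5 (r + 1) r⟩
      have h6 := (h3 r).2
      rw [div_lt_one hNp] at h6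
      exact_mod_cast h6
    have hcl : ∀ᶠ N : ℕ in atTop, ∀ r, |(i N r : ℝ) / N - (1 - bs n)| < ρ ∧
        |(j N r : ℝ) / N - bs n| < ρ := by
      rw [eventually_all]
      intro r
      have h1 := (Metric.tendsto_nhds.1 (hi0 r)) ρ hρ
      have h2 := (Metric.tendsto_nhds.1 (hj0 r)) ρ hρ
      filter_upwards [h1, h2] with N h3 h4 using ⟨h3, h4⟩
    have hxm : ∀ᶠ N : ℕ in atTop, x N ∈ Set.Ioc (-ρ') ρ' := by
      filter_upwards [hx0.eventually_const_lt (by linarith : -ρ' < 0),
        hx0.eventually_lt_const hρ'0] with N h1 h2 using ⟨h1, h2.le⟩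
    have hPTw := HPT i j x v (fun r => by
        refine (hk (Sum.inl r)).congr' ?_
        filter_upwards [hik, eventually_ge_atTop 1] with N h1 hN
        have hNp : (0 : ℝ) < N := by exact_mod_cast hN
        have hs : √(N : ℝ) * √N = N := Real.mul_self_sqrt hNp.le
        have hs0 : 0 < √(N : ℝ) := Real.sqrt_pos.2 hNp
        rw [← h1.1 r, Int.cast_natCast]
        simp only [mm, Sum.elim_inl]
        rw [div_eq_iff hs0.ne', mul_assoc, mul_comm _ (√(N : ℝ)), ← mul_assoc, hs]
        field_simp) (fun r => by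
        refine (hk (Sum.inr r)).congr' ?_
        filter_upwards [hik, eventually_ge_atTop 1] with N h1 hN
        have hNp : (0 : ℝ) < N := by exact_mod_cast hN
        have hs : √(N : ℝ) * √N = N := Real.mul_self_sqrt hNp.le
        have hs0 : 0 < √(N : ℝ) := Real.sqrt_pos.2 hNp
        rw [← h1.2 r, Int.cast_natCast]
        simp only [mm, Sum.elim_inr]
        rw [div_eq_iff hs0.ne', mul_assoc, mul_comm _ (√(N : ℝ)), ← mul_assoc, hs]
        field_simp) hx
    have hlim := plim hPAR hSDA hQDA n hn i j x _ hi0 hj0 hx0 hOk hPTw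
    refine hlim.congr' ?_
    filter_upwards [hik, hOk, hcl, hxm] with N h1 h2 h3 h4
    have e : k N = ph (i N, j N) := by
      funext s
      rcases s with r | r
      · exact (h1.1 r).symm
      · exact (h1.2 r).symm
    unfold fk
    rw [e, if_pos (mem_image_of_mem _ (mem_SS.2 ⟨h2, h3⟩)), ps_ph, Set.indicator_of_mem h4]

end Pool.Agent.Y430.TK
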